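import Mathlib
import Pool.Agent.H820R5.BW.Hit
import Pool.Agent.H820R5.BW.Rank

/-!
# Deterministic singularity and rank of polynomial matrices of bounded width

MP_08e617_lc asks for a deterministic test whether the determinant of a polynomial matrix is the
zero polynomial. We treat the matrices whose nonzero entries can be listed, in some unknown order,
so that few rows and few columns cross every cut of the list (that is, the bipartite graph of the
nonzero entries has bounded linear width), and in which every variable occurs in few entries, in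
any places, up to unknown invertible constant row and column operations. Such a matrix may have
dense rows and dense columns. For a constant bound `w` an explicit set of integer points, of size
polynomial in the number `n` of variables, the degree `d` and the number `s` of monomials of the
entries, decides whether such a matrix is singular, and a rectangular matrix of this kind attains
its rank at one of the points.

The determinant is computed by a linear program with `4 ^ w` registers, which contain minors of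
the matrices given by the first entries of the list (`H820R5.BW.exists_program`). The theorem on
such programs is that of `MP_e2be99_lc.BoundedReadPrograms` (helper530), applied as in helper530's
treatment of narrow matrices (`H530R2.Spa2`) over the field `ℂ(u)` to the Shpilka–Volkovich
generator with origin the curve of interpolated prime powers (helper626 and others,
`MP_e2be99_lc.UnboundedProducts`).
-/

namespace Pool.Agent.Results.MP_08e617_lc.BoundedWidthMatrices

open MvPolynomial Finset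

/-- `Width w A`: the nonzero entries of `A` can be listed one after the other (`pos i j` is the
place of the entry `(i, j)`) so that for every `t` at most `w` rows have a nonzero entry with place
`< t` and also one with place `≥ t`, and at most `w` columns have. -/
def Width {n a b : ℕ} (w : ℕ) (A : Matrix (Fin a) (Fin b) (MvPolynomial (Fin n) ℂ)) : Prop :=
  ∃ pos : Fin a → Fin b → ℕ,
    (∀ i j i' j', A i j ≠ 0 → A i' j' ≠ 0 → pos i j = pos i' j' → i = i' ∧ j = j') ∧
    ∀ t : ℕ,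
      {i | (∃ j, A i j ≠ 0 ∧ pos i j < t) ∧ ∃ j, A i j ≠ 0 ∧ t ≤ pos i j}.ncard ≤ w ∧
      {j | (∃ i, A i j ≠ 0 ∧ pos i j < t) ∧ ∃ i, A i j ≠ 0 ∧ t ≤ pos i j}.ncard ≤ w

/-- The matrices considered: of width at most `w`, every variable in at most `w` entries, every
entry with at most `s` monomials. -/
def Good {n a b : ℕ} (w s : ℕ) (A : Matrix (Fin a) (Fin b) (MvPolynomial (Fin n) ℂ)) : Prop :=
  Width w A ∧ (∀ x : Fin n, {ij : Fin a × Fin b | x ∈ (A ij.1 ij.2).vars}.ncard ≤ w) ∧
    ∀ i j, (A i j).support.card ≤ s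

/-- `∑_{i ≤ N} (v - 1)^i (u choose i)`, which is equal to `v ^ u` for `u ≤ N` -/
def power (N v u : ℕ) : ℕ := ∑ i ∈ Finset.range (N + 1), (v - 1) ^ i * u.choose i

/-- The point with seeds `u ∈ ℕ`, `y, z ∈ ℕ^m`: its `i`-th coordinate is
`power N p_i u + ∑_l y_l ∏_{k ≠ i} (z_l - k)`, where `p_0 = 2, p_1 = 3, …` are the primes. -/
noncomputable def point (n m N u : ℕ) (y z : Fin m → ℕ) : Fin n → ℤ := fun i =>
  (power N (Nat.nth Nat.Prime i) u : ℤ) +
    ∑ l : Fin m, (y l : ℤ) * ∏ k ∈ Finset.univ.erase i, ((z l : ℤ) - ((k : ℕ) : ℤ))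

/-- The explicit set of all points with seeds `u ∈ {0,…,Nd}`, `y ∈ {0,…,d}^m`,
`z ∈ {0,…,nd}^m`. -/
noncomputable def points (n m N d : ℕ) : Finset (Fin n → ℤ) :=
  ((Finset.range (N * d + 1)) ×ˢ ((Fintype.piFinset fun _ : Fin m => Finset.range (d + 1)) ×ˢ
    (Fintype.piFinset fun _ : Fin m => Finset.range (n * d + 1)))).image
    fun uyz => point n m N uyz.1 uyz.2.1 uyz.2.2

/-- the matrix `P M Q` -/
noncomputable def pmq {n a b : ℕ} (P : Matrix (Fin a) (Fin a) ℂ)
    (M : Matrix (Fin a) (Fin b) (MvPolynomial (Fin n) ℂ)) (Q : Matrix (Fin b) (Fin b) ℂ) :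
    Matrix (Fin a) (Fin b) (MvPolynomial (Fin n) ℂ) :=
  P.map (C : ℂ →+* MvPolynomial (Fin n) ℂ) * M * Q.map (C : ℂ →+* MvPolynomial (Fin n) ℂ)

/-- the matrix `M` at the point `p` -/
noncomputable def at' {n a b : ℕ} (M : Matrix (Fin a) (Fin b) (MvPolynomial (Fin n) ℂ))
    (p : Fin n → ℤ) : Matrix (Fin a) (Fin b) ℂ := M.map (MvPolynomial.eval fun i => (p i : ℂ))

/-- the rank of `M` as a matrix over the field of rational functions -/
noncomputable def genRank {n a b : ℕ} (M : Matrix (Fin a) (Fin b) (MvPolynomial (Fin n) ℂ)) : ℕ :=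
  (M.map (algebraMap (MvPolynomial (Fin n) ℂ) (FractionRing (MvPolynomial (Fin n) ℂ)))).rank

open Pool.Agent.H530R2 Pool.Agent.H820R5.BW

open Pool.Agent.H626R2.Loc (evG base)

theorem exists_point {n m N d : ℕ} {f : MvPolynomial (Fin n) ℂ} (h : evG ℂ (base ℂ n N) m f ≠ 0)
    (hd : f.totalDegree ≤ d) : ∃ p ∈ points n m N d, eval (fun i => (p i : ℂ)) f ≠ 0 := by
  obtain ⟨u, y, z, hu, hy, hz, hne⟩ := Pool.Agent.H626R2.Loc.exists_gridG h hd
  refine ⟨point n m N u y z, ?_, ?_⟩
  · unfold points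
    rw [Finset.mem_image]
    refine ⟨(u, y, z), ?_, rfl⟩
    rw [Finset.mem_product, Finset.mem_product]
    exact ⟨Finset.mem_range.2 (Nat.lt_succ_of_le hu),
      Fintype.mem_piFinset.2 fun l => Finset.mem_range.2 (Nat.lt_succ_of_le (hy l)),
      Fintype.mem_piFinset.2 fun l => Finset.mem_range.2 (Nat.lt_succ_of_le (hz l))⟩
  · have h3 : (fun i => ((point n m N u y z i : ℤ) : ℂ)) = (fun i : Fin n =>
        ((Pool.Agent.H626R2.Loc.psiN N (Nat.nth Nat.Prime i) u : ℕ) : ℂ) +
        ∑ l, (y l : ℂ) * ∏ j ∈ Finset.univ.erase i, ((z l : ℂ) - ((j : ℕ) : ℂ))) := by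
      funext i
      unfold point
      push_cast
      rfl
    rw [h3]
    exact hne

theorem good_evG (w : ℕ) : ∃ A m : ℕ, ∀ (n s R : ℕ)
    (M : Matrix (Fin R) (Fin R) (MvPolynomial (Fin n) ℂ)), Good w s M → M.det ≠ 0 →
    evG ℂ (base ℂ n ((s + 2) ^ A)) m M.det ≠ 0 := by
  classical
  obtain ⟨A, m, hm⟩ := width_hit w
  refine ⟨A, m, fun n s R M hM h0 => ?_⟩
  obtain ⟨⟨pos, hinj, hcut⟩, hocc, hent⟩ := hM
  refine hm n s _ le_rfl R M pos hinj (fun t => ⟨?_, ?_⟩) hocc
    (fun a c => (hent a c).trans (Nat.le_add_right _ _)) h0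
  · rw [← Set.ncard_coe_finset]
    refine (Set.ncard_le_ncard (fun i hi => ?_) (Set.toFinite _)).trans (hcut t).1
    exact mem_LR.1 hi
  · rw [← Set.ncard_coe_finset]
    refine (Set.ncard_le_ncard (fun i hi => ?_) (Set.toFinite _)).trans (hcut t).2
    exact mem_LC.1 hi

theorem good_sub {n a b r w s : ℕ} {A : Matrix (Fin a) (Fin b) (MvPolynomial (Fin n) ℂ)}
    (hA : Good w s A) {e : Fin r → Fin a} {f : Fin r → Fin b} (he : Function.Injective e)
    (hf : Function.Injective f) : Good w s (A.submatrix e f) := by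
  classical
  obtain ⟨⟨pos, hinj, hcut⟩, hocc, hent⟩ := hA
  refine ⟨⟨fun i j => pos (e i) (f j), ?_, fun t => ⟨?_, ?_⟩⟩, fun x => ?_, fun i j => hent _ _⟩
  · intro i j i' j' h h' hp
    obtain ⟨h3, h4⟩ := hinj _ _ _ _ h h' hp
    exact ⟨he h3, hf h4⟩
  · refine le_trans ?_ (hcut t).1
    rw [← Set.ncard_image_of_injective _ he]
    refine Set.ncard_le_ncard ?_ (Set.toFinite _)
    rintro _ ⟨i, ⟨⟨j, h1, h2⟩, j', h3, h4⟩, rfl⟩
    exact ⟨⟨f j, h1, h2⟩, f j', h3, h4⟩
  · refine le_trans ?_ (hcut t).2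
    rw [← Set.ncard_image_of_injective _ hf]
    refine Set.ncard_le_ncard ?_ (Set.toFinite _)
    rintro _ ⟨i, ⟨⟨j, h1, h2⟩, j', h3, h4⟩, rfl⟩
    exact ⟨⟨e j, h1, h2⟩, e j', h3, h4⟩
  · refine le_trans ?_ (hocc x)
    have hinj2 : Function.Injective (fun ij : Fin r × Fin r => (e ij.1, f ij.2)) := by
      rintro ⟨i, j⟩ ⟨i', j'⟩ h
      simp only [Prod.mk.injEq] at h
      exact Prod.ext (he h.1) (hf h.2)
    rw [← Set.ncard_image_of_injective _ hinj2]
    refine Set.ncard_le_ncard ?_ (Set.toFinite _)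
    rintro _ ⟨ij, h, rfl⟩
    exact h

theorem pos_div {b : ℕ} (x : ℕ) (j : Fin b) : (x * b + j) / b = x := by
  have hj := j.2
  rw [Nat.add_comm, Nat.add_mul_div_right _ _ (by omega), Nat.div_eq_of_lt hj, zero_add]

/-- matrices whose rows can be ordered with few columns crossing between the rows -/
theorem width_of_rows {n a b c : ℕ} (A : Matrix (Fin a) (Fin b) (MvPolynomial (Fin n) ℂ))
    (h : ∀ i : ℕ, {j | (∃ x : Fin a, (x : ℕ) < i ∧ A x j ≠ 0) ∧
      ∃ x : Fin a, i ≤ (x : ℕ) ∧ A x j ≠ 0}.ncard ≤ c) : Width (2 * c + 1) A := by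
  refine ⟨fun i j => i * b + j, ?_, fun t => ⟨?_, ?_⟩⟩
  · intro i j i' j' _ _ hp
    simp only at hp
    have h1 : (i : ℕ) = i' := by
      rw [← pos_div (i : ℕ) j, hp, pos_div]
    refine ⟨Fin.ext h1, Fin.ext ?_⟩
    rw [h1] at hp
    omega
  · refine le_trans ?_ (Nat.le_add_left 1 (2 * c))
    rw [Set.ncard_le_one (Set.toFinite _)]
    rintro i ⟨⟨j, -, h1⟩, j', -, h2⟩ k ⟨⟨l, -, h3⟩, l', -, h4⟩
    have h1' := Nat.div_le_div_right (c := b) h1.le
    have h2' := Nat.div_le_div_right (c := b) h2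
    have h3' := Nat.div_le_div_right (c := b) h3.le
    have h4' := Nat.div_le_div_right (c := b) h4
    rw [pos_div] at h1' h2' h3' h4'
    exact Fin.ext (by omega)
  · refine le_trans (Set.ncard_le_ncard (t :=
      {j | (∃ x : Fin a, (x : ℕ) < t / b ∧ A x j ≠ 0) ∧ ∃ x : Fin a, t / b ≤ (x : ℕ) ∧ A x j ≠ 0} ∪
      {j | (∃ x : Fin a, (x : ℕ) < t / b + 1 ∧ A x j ≠ 0) ∧
        ∃ x : Fin a, t / b + 1 ≤ (x : ℕ) ∧ A x j ≠ 0}) ?_ (Set.toFinite _)) ?_
    · rintro j ⟨⟨i, hi, h1⟩, i', hi', h2⟩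
      have h1' := Nat.div_le_div_right (c := b) h1.le
      have h2' := Nat.div_le_div_right (c := b) h2
      rw [pos_div] at h1' h2'
      have ht := Nat.div_add_mod' t b
      rcases lt_or_ge (j : ℕ) (t % b) with hj | hj
      · right
        refine ⟨⟨i, by omega, hi⟩, i', ?_, hi'⟩
        by_contra hlt
        have e : (i' : ℕ) = t / b := by omega
        change t ≤ (i' : ℕ) * b + j at h2
        rw [e] at h2
        omega
      · left
        refine ⟨⟨i, ?_, hi⟩, i', h2', hi'⟩
        by_contra hlt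
        have e : (i : ℕ) = t / b := by omega
        change (i : ℕ) * b + j < t at h1
        rw [e] at h1
        omega
    · refine (Set.ncard_union_le _ _).trans ?_
      have := h (t / b)
      have := h (t / b + 1)
      omega

theorem row_card {n N c : ℕ} {A : Matrix (Fin N) (Fin N) (MvPolynomial (Fin n) ℂ)}
    (hdet : A.det ≠ 0)
    (h : ∀ i : ℕ, {j | (∃ x : Fin N, (x : ℕ) < i ∧ A x j ≠ 0) ∧
      ∃ x : Fin N, i ≤ (x : ℕ) ∧ A x j ≠ 0}.ncard ≤ c) (i : Fin N) :
    {j | A i j ≠ 0}.ncard ≤ 2 * c + 1 := by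
  classical
  have h1 : {j | A i j ≠ 0} ⊆
      ({j | (∃ x : Fin N, (x : ℕ) < i ∧ A x j ≠ 0) ∧ ∃ x : Fin N, (i : ℕ) ≤ (x : ℕ) ∧ A x j ≠ 0} ∪
      {j | (∃ x : Fin N, (x : ℕ) < i + 1 ∧ A x j ≠ 0) ∧
        ∃ x : Fin N, (i : ℕ) + 1 ≤ (x : ℕ) ∧ A x j ≠ 0}) ∪
      {j | A i j ≠ 0 ∧ ∀ x, x ≠ i → A x j = 0} := by
    intro j hj
    by_cases hx : ∀ x, x ≠ i → A x j = 0
    · exact Or.inr ⟨hj, hx⟩
    · left
      push Not at hx
      obtain ⟨x, hxi, hx⟩ := hx
      have hne : (x : ℕ) ≠ i := fun h => hxi (Fin.ext h)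
      rcases lt_or_gt_of_ne hne with hlt | hlt
      · exact Or.inl ⟨⟨x, hlt, hx⟩, i, le_rfl, hj⟩
      · exact Or.inr ⟨⟨i, Nat.lt_succ_self _, hj⟩, x, hlt, hx⟩
  have h2 : {j | A i j ≠ 0 ∧ ∀ x, x ≠ i → A x j = 0}.ncard ≤ 1 := by
    rw [Set.ncard_le_one (Set.toFinite _)]
    rintro j ⟨hj, hj0⟩ k ⟨hk, hk0⟩
    by_contra hjk
    apply hdet
    rw [← Matrix.exists_mulVec_eq_zero_iff]
    refine ⟨Pi.single j (A i k) - Pi.single k (A i j), fun h0 => ?_, ?_⟩
    · have := congrFun h0 j
      rw [Pi.sub_apply, Pi.single_eq_same, Pi.single_eq_of_ne hjk, sub_zero, Pi.zero_apply] at this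
      exact hk this
    · funext x
      rw [Matrix.mulVec_sub, Pi.sub_apply, Matrix.mulVec_single, Matrix.mulVec_single]
      by_cases hx : x = i
      · subst hx
        simp [mul_comm]
      · simp [hj0 x hx, hk0 x hx]
  refine (Set.ncard_le_ncard h1 (Set.toFinite _)).trans ((Set.ncard_union_le _ _).trans ?_)
  have h3 := Set.ncard_union_le {j | (∃ x : Fin N, (x : ℕ) < i ∧ A x j ≠ 0) ∧
    ∃ x : Fin N, (i : ℕ) ≤ (x : ℕ) ∧ A x j ≠ 0} {j | (∃ x : Fin N, (x : ℕ) < i + 1 ∧ A x j ≠ 0) ∧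
        ∃ x : Fin N, (i : ℕ) + 1 ≤ (x : ℕ) ∧ A x j ≠ 0}
  have h4 := h i
  have h5 := h (i + 1)
  omega

/-- nonsingular matrices whose rows can be ordered with few columns crossing between the rows, and
in which every variable occurs in few rows -/
theorem good_of_rows {n N c r s : ℕ} {A : Matrix (Fin N) (Fin N) (MvPolynomial (Fin n) ℂ)}
    (hdet : A.det ≠ 0)
    (h : ∀ i : ℕ, {j | (∃ x : Fin N, (x : ℕ) < i ∧ A x j ≠ 0) ∧
      ∃ x : Fin N, i ≤ (x : ℕ) ∧ A x j ≠ 0}.ncard ≤ c)
    (hr : ∀ x : Fin n, {i | ∃ j, x ∈ (A i j).vars}.ncard ≤ r) (he : ∀ i j, (A i j).support.card ≤ s) :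
    Good ((r + 1) * (2 * c + 1)) s A := by
  classical
  have hw : ∀ {w w' : ℕ}, w ≤ w' → Width w A → Width w' A := by
    rintro w w' hw ⟨pos, h1, h2⟩
    exact ⟨pos, h1, fun t => ⟨(h2 t).1.trans hw, (h2 t).2.trans hw⟩⟩
  refine ⟨hw (Nat.le_mul_of_pos_left _ (Nat.succ_pos r)) (width_of_rows A h), fun x => ?_, he⟩
  have h1 : ({ij : Fin N × Fin N | x ∈ (A ij.1 ij.2).vars}).toFinset ⊆
      ({i | ∃ j, x ∈ (A i j).vars} : Set (Fin N)).toFinset.biUnion fun i =>
        ({j | A i j ≠ 0} : Set (Fin N)).toFinset.image fun j => (i, j) := by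
    rintro ⟨i, j⟩ hij
    rw [Set.mem_toFinset] at hij
    rw [mem_biUnion]
    refine ⟨i, Set.mem_toFinset.2 ⟨j, hij⟩, mem_image.2 ⟨j, Set.mem_toFinset.2 fun h0 => ?_, rfl⟩⟩
    have : x ∈ (A i j).vars := hij
    rw [h0, vars_0] at this
    exact absurd this (Finset.notMem_empty _)
  rw [Set.ncard_eq_toFinset_card']
  refine (card_le_card h1).trans (card_biUnion_le.trans ?_)
  refine (Finset.sum_le_card_nsmul _ _ (2 * c + 1) fun i _ => card_image_le.trans ?_).trans ?_
  · rw [← Set.ncard_eq_toFinset_card']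
    exact row_card hdet h i
  · rw [← Set.ncard_eq_toFinset_card', smul_eq_mul]
    exact Nat.mul_le_mul_right _ ((hr x).trans (Nat.le_succ r))

theorem totalDegree_det_le {n r δ : ℕ} (A : Matrix (Fin r) (Fin r) (MvPolynomial (Fin n) ℂ))
    (h : ∀ i j, (A i j).totalDegree ≤ δ) : A.det.totalDegree ≤ r * δ := by
  rw [Matrix.det_apply]
  refine totalDegree_finsetSum_le fun σ _ => ?_
  refine (totalDegree_smul_le _ _).trans ((totalDegree_finsetProd _ _).trans ?_)
  refine (Finset.sum_le_sum fun i _ => h _ _).trans ?_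
  simp

theorem totalDegree_pmq {n a b δ : ℕ} (M : Matrix (Fin a) (Fin b) (MvPolynomial (Fin n) ℂ))
    (h : ∀ i j, (M i j).totalDegree ≤ δ) (P : Matrix (Fin a) (Fin a) ℂ)
    (Q : Matrix (Fin b) (Fin b) ℂ) (i : Fin a) (j : Fin b) :
    (pmq P M Q i j).totalDegree ≤ δ := by
  unfold pmq
  rw [Matrix.mul_apply]
  refine totalDegree_finsetSum_le fun k _ => ?_
  refine (totalDegree_mul _ _).trans ?_
  rw [Matrix.map_apply, totalDegree_C, add_zero, Matrix.mul_apply]
  refine totalDegree_finsetSum_le fun l _ => ?_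
  refine (totalDegree_mul _ _).trans ?_
  rw [Matrix.map_apply, totalDegree_C, zero_add]
  exact h _ _

theorem det_pmq {n N : ℕ} (P Q : Matrix (Fin N) (Fin N) ℂ)
    (M : Matrix (Fin N) (Fin N) (MvPolynomial (Fin n) ℂ)) :
    (pmq P M Q).det = C P.det * M.det * C Q.det := by
  unfold pmq
  rw [Matrix.det_mul, Matrix.det_mul, (C : ℂ →+* MvPolynomial (Fin n) ℂ).map_det P,
    (C : ℂ →+* MvPolynomial (Fin n) ℂ).map_det Q]
  rfl

/-- the rank of `P M Q`, after a ring homomorphism to a field -/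
theorem rank_pmq {n a b : ℕ} {K : Type*} [Field K] (φ : MvPolynomial (Fin n) ℂ →+* K)
    {P : Matrix (Fin a) (Fin a) ℂ} {Q : Matrix (Fin b) (Fin b) ℂ}
    (M : Matrix (Fin a) (Fin b) (MvPolynomial (Fin n) ℂ)) (hP : P.det ≠ 0) (hQ : Q.det ≠ 0) :
    ((pmq P M Q).map φ).rank = (M.map φ).rank := by
  unfold pmq
  rw [Matrix.map_mul, Matrix.map_mul]
  have h1 : ∀ {k : ℕ} (R : Matrix (Fin k) (Fin k) ℂ), R.det ≠ 0 →
      ((R.map (C : ℂ →+* MvPolynomial (Fin n) ℂ)).map φ).det ≠ 0 := by
    intro k R hR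
    have e : ((R.map (C : ℂ →+* MvPolynomial (Fin n) ℂ)).map φ).det =
        (φ.comp (C : ℂ →+* MvPolynomial (Fin n) ℂ)) R.det := by
      rw [RingHom.map_det]
      rfl
    rw [e]
    exact (map_ne_zero _).2 hR
  rw [Matrix.rank_mul_eq_left_of_isUnit_det _ _ (isUnit_iff_ne_zero.2 (h1 Q hQ)),
    Matrix.rank_mul_eq_right_of_isUnit_det _ _ (isUnit_iff_ne_zero.2 (h1 P hP))]

/-- a minor of `M` at a point -/
theorem minor_at {n a b r : ℕ} (M : Matrix (Fin a) (Fin b) (MvPolynomial (Fin n) ℂ))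
    {K : Type*} [Field K] (φ : MvPolynomial (Fin n) ℂ →+* K) (e : Fin r → Fin a)
    (f : Fin r → Fin b) : ((M.map φ).submatrix e f).det = φ (M.submatrix e f).det := by
  rw [RingHom.map_det]
  rfl

theorem rank_at_le {n a b : ℕ} (M : Matrix (Fin a) (Fin b) (MvPolynomial (Fin n) ℂ))
    (p : Fin n → ℤ) : (at' M p).rank ≤ genRank M := by
  obtain ⟨e, f, hef⟩ := exists_minor (at' M p)
  unfold genRank
  refine le_rank_of_minor _ e f ?_
  rw [minor_at]
  have hef' : (MvPolynomial.eval fun i => (p i : ℂ)) (M.submatrix e f).det ≠ 0 := by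
    rw [← minor_at]
    exact hef
  intro h0
  apply hef'
  have : (M.submatrix e f).det = 0 := by
    rwa [map_eq_zero_iff _ (IsFractionRing.injective (MvPolynomial (Fin n) ℂ)
      (FractionRing (MvPolynomial (Fin n) ℂ)))] at h0
  rw [this, map_zero]

/-- For every `w` there are `k, m` such that for all `n, d, s` the explicit set
`points n m ((s + 2) ^ k) d ⊆ ℤ^n`, of size polynomial in `n, d, s`, has the following properties.

* It hits every polynomial of total degree at most `d` which divides a product of nonzero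
  determinants of matrices with `Good w s`.
* A square polynomial matrix `M` in `n` variables, such that `P M Q` is `Good w s` for some
  invertible complex matrices `P`, `Q` and `det M` has degree at most `d`, is nonsingular if and
  only if it is nonsingular at a point of the set.
* For a rectangular polynomial matrix `M`, such that `P M Q` is `Good w s` for some invertible
  complex matrices `P`, `Q` and all entries have degree at most `δ` where `min a b * δ ≤ d`, the
  rank of `M` over the rational functions is the maximum of the ranks of `M` at the points of the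
  set.

The nonsingular square matrices whose rows can be ordered so that between any two consecutive rows
at most `c` columns have nonzero entries on both sides (for instance those of bandwidth `c / 2`),
in which every variable occurs in at most `r` rows, and whose entries have at most `s` monomials,
are `Good ((r + 1) * (2 * c + 1)) s`. -/
theorem result : (∀ w : ℕ, ∃ k m : ℕ, ∀ n d s : ℕ,
    (points n m ((s + 2) ^ k) d).card ≤
      ((s + 2) ^ k * d + 1) * ((d + 1) * (n * d + 1)) ^ m ∧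
    (∀ p ∈ points n m ((s + 2) ^ k) d, ∀ i,
      |p i| ≤ ((2 ^ (n * (s + 2) ^ k * d) + m * d * (n * d + n) ^ (n - 1) : ℕ) : ℤ)) ∧
    (∀ (f : MvPolynomial (Fin n) ℂ) (J : ℕ) (N : Fin J → ℕ)
      (A : ∀ j, Matrix (Fin (N j)) (Fin (N j)) (MvPolynomial (Fin n) ℂ)),
      (∀ j, Good w s (A j)) → (∀ j, (A j).det ≠ 0) → f ∣ ∏ j, (A j).det →
      f.totalDegree ≤ d →
      ∃ p ∈ points n m ((s + 2) ^ k) d, MvPolynomial.eval (fun i => (p i : ℂ)) f ≠ 0) ∧
    (∀ (N : ℕ) (M : Matrix (Fin N) (Fin N) (MvPolynomial (Fin n) ℂ))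
      (P Q : Matrix (Fin N) (Fin N) ℂ), P.det ≠ 0 → Q.det ≠ 0 → Good w s (pmq P M Q) →
      M.det.totalDegree ≤ d →
      (M.det ≠ 0 ↔ ∃ p ∈ points n m ((s + 2) ^ k) d, (at' M p).det ≠ 0)) ∧
    ∀ (a b δ : ℕ) (M : Matrix (Fin a) (Fin b) (MvPolynomial (Fin n) ℂ))
      (P : Matrix (Fin a) (Fin a) ℂ) (Q : Matrix (Fin b) (Fin b) ℂ), P.det ≠ 0 → Q.det ≠ 0 →
      Good w s (pmq P M Q) → (∀ i j, (M i j).totalDegree ≤ δ) → min a b * δ ≤ d →
      (∀ p, (at' M p).rank ≤ genRank M) ∧
      ∃ p ∈ points n m ((s + 2) ^ k) d, (at' M p).rank = genRank M) ∧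
    ∀ (n N c r s : ℕ) (A : Matrix (Fin N) (Fin N) (MvPolynomial (Fin n) ℂ)), A.det ≠ 0 →
      (∀ i : ℕ, {j | (∃ x : Fin N, (x : ℕ) < i ∧ A x j ≠ 0) ∧
        ∃ x : Fin N, i ≤ (x : ℕ) ∧ A x j ≠ 0}.ncard ≤ c) →
      (∀ x : Fin n, {i | ∃ j, x ∈ (A i j).vars}.ncard ≤ r) → (∀ i j, (A i j).support.card ≤ s) →
      Good ((r + 1) * (2 * c + 1)) s A := by
  refine ⟨?_, fun n N c r s A h1 h2 h3 h4 => good_of_rows h1 h2 h3 h4⟩
  intro w
  obtain ⟨k, m, hm⟩ := good_evG w
  refine ⟨k, m, fun n d s => ?_⟩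
  have key : ∀ (f : MvPolynomial (Fin n) ℂ) (J : ℕ) (N : Fin J → ℕ)
      (A : ∀ j, Matrix (Fin (N j)) (Fin (N j)) (MvPolynomial (Fin n) ℂ)),
      (∀ j, Good w s (A j)) → (∀ j, (A j).det ≠ 0) → f ∣ ∏ j, (A j).det →
      f.totalDegree ≤ d →
      ∃ p ∈ points n m ((s + 2) ^ k) d, MvPolynomial.eval (fun i => (p i : ℂ)) f ≠ 0 := by
    intro f J N A hA hA0 hdvd hd
    refine exists_point (fun hz => ?_) hd
    obtain ⟨g, hg⟩ := hdvd
    have h2 : evG ℂ (base ℂ n ((s + 2) ^ k)) m (∏ j, (A j).det) = 0 := by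
      rw [hg, map_mul, hz, zero_mul]
    rw [map_prod] at h2
    obtain ⟨j, _, hj⟩ := Finset.prod_eq_zero_iff.1 h2
    exact hm n s (N j) (A j) (hA j) (hA0 j) hj
  refine ⟨Pool.Agent.H626R2.Loc.pointsE_card n m ((s + 2) ^ k) d,
    fun p hp i => Pool.Agent.H626R2.Loc.pointsE_bound n m ((s + 2) ^ k) d p hp i, key, ?_, ?_⟩
  · intro N M P Q hP hQ hN hd
    have hev : ∀ p : Fin n → ℤ, (at' M p).det =
        MvPolynomial.eval (fun i => (p i : ℂ)) M.det := fun p =>
      ((MvPolynomial.eval fun i => (p i : ℂ)).map_det M).symm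
    constructor
    · intro h0
      obtain ⟨p, hp, hpe⟩ := key M.det 1 (fun _ => N) (fun _ => pmq P M Q)
        (fun _ => hN) (fun _ => by
          rw [det_pmq]
          exact mul_ne_zero (mul_ne_zero (fun h => hP (C_eq_zero.1 h)) h0)
            (fun h => hQ (C_eq_zero.1 h)))
        (by
          rw [Fin.prod_univ_one, det_pmq]
          exact Dvd.intro_left (C P.det) rfl |>.mul_right _) hd
      exact ⟨p, hp, by rw [hev]; exact hpe⟩
    · rintro ⟨p, _, hpe⟩ h0
      rw [hev, h0, map_zero] at hpe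
      exact hpe rfl
  · intro a b δ M P Q hP hQ hN hδ hd
    refine ⟨rank_at_le M, ?_⟩
    -- a nonzero minor of `P M Q` whose size is the rank
    obtain ⟨e, f, hef⟩ := exists_minor ((pmq P M Q).map (algebraMap (MvPolynomial (Fin n) ℂ)
      (FractionRing (MvPolynomial (Fin n) ℂ))))
    have hr : ((pmq P M Q).map (algebraMap (MvPolynomial (Fin n) ℂ)
        (FractionRing (MvPolynomial (Fin n) ℂ)))).rank = genRank M := rank_pmq _ M hP hQ
    rw [minor_at] at hef
    have hdet : ((pmq P M Q).submatrix e f).det ≠ 0 := fun h => hef (by rw [h, map_zero])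
    have he : Function.Injective e := by
      intro i i' h
      by_contra hne
      exact hdet (Matrix.det_zero_of_row_eq hne (by
        funext j; simp [Matrix.submatrix_apply, h]))
    have hf : Function.Injective f := by
      intro i i' h
      by_contra hne
      exact hdet (Matrix.det_zero_of_column_eq hne (by
        intro j; simp [Matrix.submatrix_apply, h]))
    have hrle : ((pmq P M Q).map (algebraMap (MvPolynomial (Fin n) ℂ)
        (FractionRing (MvPolynomial (Fin n) ℂ)))).rank ≤ min a b := by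
      refine le_min ?_ ?_
      · simpa using Fintype.card_le_of_injective e he
      · simpa using Fintype.card_le_of_injective f hf
    obtain ⟨p, hp, hpe⟩ := key ((pmq P M Q).submatrix e f).det 1 _
      (fun _ => (pmq P M Q).submatrix e f) (fun _ => good_sub hN he hf) (fun _ => hdet)
      (by rw [Fin.prod_univ_one])
      ((totalDegree_det_le _ fun i j => totalDegree_pmq M hδ P Q _ _).trans
        ((Nat.mul_le_mul_right _ hrle).trans hd))
    refine ⟨p, hp, le_antisymm (rank_at_le M p) ?_⟩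
    rw [← hr]
    have h2 : (at' M p).rank = ((pmq P M Q).map (MvPolynomial.eval fun i => (p i : ℂ))).rank :=
      (rank_pmq (MvPolynomial.eval fun i => (p i : ℂ)) M hP hQ).symm
    rw [h2]
    refine le_rank_of_minor _ e f ?_
    rw [minor_at]
    exact hpe

end Pool.Agent.Results.MP_08e617_lc.BoundedWidthMatrices
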