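import Mathlib
import Pool.Agent.H870R2.LS.DSym
import Pool.Agent.H870R2.LS.DNet

/-! Singularity of polynomial matrices by networks that are symmetric under permutations of the
variables (rows and columns stay where they are). -/

namespace Pool.Agent.H870R2.PC

open H522R2.LS MvPolynomial

/-- **Singularity of polynomial matrices by symmetric networks, with and without coins.** -/
theorem _root_.Pool.Agent.Results.MP_08e617_lc.LocalSymmetry.result :
    -- (1) lower bound for finite families of locally symmetric networks (the index is uniform):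
    -- errors `a`, `b` (numbers of wrong networks), `a + b ≤ 2/3 * Fintype.card Γ`
    (∀ (K Ω Γ : Type) (_ : Fintype Ω) (_ : DecidableEq Ω) (_ : Fintype Γ) (_ : Nonempty Γ)
      (r m : ℕ) (β : Fin r × Fin 4 ↪ Ω) (C : Γ → PNet (Ent Ω m) K) (acc : Γ → Set K) (a b : ℕ),
      3 * (r / 2) ≤ m →
      3 * (a + b) ≤ 2 * Fintype.card Γ →
      (∀ M ∈ CycMat Ω m, M.det = 0 →
        Nat.card {γ // (C γ).val (cof M) (C γ).out ∉ acc γ} ≤ a) →
      (∀ M ∈ CycMat Ω m, M.det ≠ 0 →
        Nat.card {γ // (C γ).val (cof M) (C γ).out ∈ acc γ} ≤ b) →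
      (∀ (γ : Γ) (v : Fin r) (x y z : Fin 4), x ≠ y → y ≠ z → x ≠ z →
        (C γ).SymmUnder (entMap (cyc (β (v, x)) (β (v, y)) (β (v, z))))) →
      ∃ γ, 2 ^ (r / 960) ≤ Fintype.card (C γ).G) ∧
    -- (2) upper bound: a symmetric network with a random number for each variable, one-sided error
    (∀ (Ω : Type) (_ : Fintype Ω) (_ : DecidableEq Ω) (m : ℕ),
      ∃ C : PNet (Ent Ω m ⊕ Ω) (Option (Fin m × Fin m) × ℤ),
        Fintype.card C.G ≤ 4 * (m + 1) ^ 2 * (Fintype.card Ω + 1) ^ 3 ∧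
        (∀ g : Equiv.Perm Ω, C.SymmUnder (coinMapE g)) ∧
        ∀ M : Matrix (Fin m) (Fin m) (MvPolynomial Ω ℤ), (∀ i j, (M i j).totalDegree ≤ 3) →
          (M.det = 0 → ∀ a : Ω → ℕ, C.val (coinE M a) C.out = (none, 0)) ∧
          (M.det ≠ 0 → ∀ L : ℕ, 0 < L →
            Nat.card {a : Ω → Fin L //
              C.val (coinE M (fun x => (a x : ℕ))) C.out = (none, 0)} * L ≤
              3 * m * L ^ Fintype.card Ω)) ∧
    -- (3) converse: how far local symmetry is from no symmetry
    (∀ (K Ω : Type) (_ : Fintype Ω) (_ : DecidableEq Ω) (r m : ℕ) (β : Fin r × Fin 4 ↪ Ω)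
      (C : PNet (Ent Ω m) K) (enc : Prop → K),
      (∀ M : Matrix (Fin m) (Fin m) (MvPolynomial Ω ℤ), (∀ i j, (M i j).totalDegree ≤ 3) →
        C.val (cof M) C.out = enc (M.det = 0)) →
      ∃ C' : PNet (Ent Ω m) K,
        (∀ M : Matrix (Fin m) (Fin m) (MvPolynomial Ω ℤ), (∀ i j, (M i j).totalDegree ≤ 3) →
          C'.val (cof M) C'.out = enc (M.det = 0)) ∧
        (∀ g : Equiv.Perm Ω, Preserves β g → C'.SymmUnder (entMap g)) ∧
        Fintype.card C'.G = 24 ^ r * Fintype.card C.G + 1 ∧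
        (∀ g', g' ≠ C'.out → ∃ g, C'.F g' = C.F g) ∧
        ∀ (o : Option ℕ) (k : K) (n : ℕ), 0 < n → C'.F C'.out o (n • ({k} : Multiset K)) = k) := by
  refine ⟨?_, ?_, ?_⟩
  · intro K Ω Γ _ _ _ _ r m β C acc a b hm hab h1 h2 hsym
    exact lower_mat β hm C a b hab h1 h2 hsym
  · intro Ω _ _ m
    obtain ⟨C, h1, h2, h3⟩ := exists_det_net Ω m
    refine ⟨C, h1, h2, fun M hM => ?_⟩
    have hdet : ∀ a : Ω → ℕ, C.val (coinE M a) C.out =
        (none, eval (fun x => (a x : ℤ)) M.det) := by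
      intro a
      rw [h3 M hM a]
      have h4 := RingHom.map_det (eval (fun x => (a x : ℤ))) M
      rw [h4]
      rfl
    refine ⟨fun h a => ?_, fun h L hL => ?_⟩
    · rw [hdet, h, map_zero]
    · have h4 := sz_count _ h _ L (det_degree M 3 hM) hL
      refine le_trans (le_of_eq ?_) h4
      congr 1
      refine Nat.card_congr (Equiv.subtypeEquivRight (fun a => ?_))
      rw [hdet (fun x => (a x : ℕ)), Prod.mk.injEq]
      simp
  · intro K Ω _ _ r m β C enc hC
    exact exists_symm_mat β C enc hC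

end Pool.Agent.H870R2.PC
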