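import Mathlib
import Pool.Agent.H530R2.SubPM

/-!
# A subexponential deterministic singularity test for polynomial matrices

A square polynomial matrix whose entries have altogether at most `r³` incidences between monomials
and variables, with a determinant of degree at most `D`, is tested by evaluating the determinant
at `(4r²(n+1)(D+1))^(9r²)` explicit integer points.
-/

namespace Pool.Agent.Results.MP_08e617_lc.SubexponentialTest

open MvPolynomial

/-- The number of pairs (monomial, variable) such that the monomial occurs in `m` with a nonzero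
coefficient and the variable occurs in the monomial. -/
noncomputable def incidences {F : Type*} [Field F] {n : ℕ} (m : MvPolynomial (Fin n) F) : ℕ :=
  ∑ s ∈ m.support, s.support.card

/-- The total number of incidences of the entries of a polynomial matrix. -/
noncomputable def size {F : Type*} [Field F] {n N : ℕ}
    (M : Matrix (Fin N) (Fin N) (MvPolynomial (Fin n) F)) : ℕ :=
  ∑ i, ∑ j, incidences (M i j)

/-- `t = ⌊r³ / r⌋`, which is `r²` for `r ≥ 1` -/
def cnt (r : ℕ) : ℕ := r ^ 3 / r

/-- `brk` cuts the variables `x_0, …, x_(n-1)` into `t + 1` consecutive blocks: the variable `x_i`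
is in the block whose number is the number of the break points which are at most `i`. -/
def block {n t : ℕ} (brk : Fin t → Fin (n + 1)) (i : Fin n) : Fin (t + 1) :=
  ⟨(Finset.univ.filter fun l : Fin t => (brk l : ℕ) ≤ i).card, by
    refine Nat.lt_succ_of_le ((Finset.card_le_univ _).trans ?_)
    simp⟩

/-- The point given by positions `pos` with values `val`, by break points `brk`, and by seeds `y`
and `u`: the `i`-th coordinate is the value at the position `i` if `i` is one of the positions,
and `∑_k y_k u_b^((i+1)k)` otherwise, where `b` is the number of the block of `i`. -/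
def point {n t ℓ : ℕ} (pos : Fin t → Fin (n + 1)) (val : Fin t → ℕ)
    (brk : Fin t → Fin (n + 1)) (y : Fin ℓ → ℕ) (u : Fin (t + 1) → ℕ) : Fin n → ℤ :=
  fun i => if ∃ l, (pos l : ℕ) = i then ∑ l, (if (pos l : ℕ) = i then (val l : ℤ) else 0)
    else ∑ k : Fin ℓ, (y k : ℤ) * (u (block brk i) : ℤ) ^ (((i : ℕ) + 1) * (k : ℕ))

/-- All points with `t = cnt r`, `ℓ = 4r²`, values and seeds `y` in `{0, …, D}` and seeds `u` in
`{0, …, 4r²·n·D}`. -/
def points (n D r : ℕ) : Finset (Fin n → ℤ) :=
  (Finset.univ : Finset ((Fin (cnt r) → Fin (n + 1)) × (Fin (cnt r) → Fin (D + 1)) ×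
      (Fin (cnt r) → Fin (n + 1)) × (Fin (4 * r ^ 2) → Fin (D + 1)) ×
      (Fin (cnt r + 1) → Fin (4 * r ^ 2 * n * D + 1)))).image
    fun q => point q.1 (fun l => (q.2.1 l : ℕ)) q.2.2.1 (fun k => (q.2.2.2.1 k : ℕ))
      (fun c => (q.2.2.2.2 c : ℕ))

theorem cnt_le (r : ℕ) : cnt r ≤ r ^ 2 := by
  unfold cnt
  rcases Nat.eq_zero_or_pos r with h | h
  · subst h; simp
  · rw [Nat.div_le_iff_le_mul_add_pred h]
    have : r ^ 3 = r * r ^ 2 := by ring
    omega

theorem points_card (n D r : ℕ) (hr : 1 ≤ r) :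
    (points n D r).card ≤ (4 * r ^ 2 * (n + 1) * (D + 1)) ^ (9 * r ^ 2) := by
  unfold points
  refine Finset.card_image_le.trans ?_
  rw [Finset.card_univ]
  simp only [Fintype.card_prod, Fintype.card_pi, Fintype.card_fin, Finset.prod_const,
    Finset.card_univ]
  have hc : cnt r ≤ r ^ 2 := cnt_le r
  have hr2 : 1 ≤ r ^ 2 := Nat.one_le_pow _ _ hr
  set B := 4 * r ^ 2 * (n + 1) * (D + 1) with hB
  have hB1 : 1 ≤ B := by
    have : 0 < B := by positivity
    omega
  have h1 : n + 1 ≤ B := by
    calc n + 1 = 1 * (n + 1) * 1 := by ring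
      _ ≤ 4 * r ^ 2 * (n + 1) * (D + 1) := by gcongr <;> omega
  have h2 : D + 1 ≤ B := by
    calc D + 1 = 1 * 1 * (D + 1) := by ring
      _ ≤ 4 * r ^ 2 * (n + 1) * (D + 1) := by gcongr <;> omega
  have h3 : 4 * r ^ 2 * n * D + 1 ≤ B := by
    have : 4 * r ^ 2 * (n + 1) * (D + 1) = 4 * r ^ 2 * n * D + 4 * r ^ 2 * n +
      4 * r ^ 2 * D + 4 * r ^ 2 := by ring
    omega
  calc (n + 1) ^ cnt r * ((D + 1) ^ cnt r * ((n + 1) ^ cnt r * ((D + 1) ^ (4 * r ^ 2) *
        (4 * r ^ 2 * n * D + 1) ^ (cnt r + 1))))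
      ≤ B ^ (r ^ 2) * (B ^ (r ^ 2) * (B ^ (r ^ 2) * (B ^ (4 * r ^ 2) * B ^ (2 * r ^ 2)))) := by
        gcongr
        omega
    _ = B ^ (9 * r ^ 2) := by
        rw [← pow_add, ← pow_add, ← pow_add, ← pow_add]
        congr 1
        ring

theorem points_bound (n D r : ℕ) (p : Fin n → ℤ) (hp : p ∈ points n D r) (i : Fin n) :
    |p i| ≤ ((4 * r ^ 2 * D * (4 * r ^ 2 * n * D + 1) ^ (4 * r ^ 2 * n) : ℕ) : ℤ) := by
  unfold points at hp
  rw [Finset.mem_image] at hp
  obtain ⟨⟨pos, val, brk, y, u⟩, _, rfl⟩ := hp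
  simp only [point]
  have hc : cnt r ≤ 4 * r ^ 2 := (cnt_le r).trans (by omega)
  split_ifs with h
  · calc |∑ l, (if (pos l : ℕ) = i then ((val l : ℕ) : ℤ) else 0)|
        ≤ ∑ l, |(if (pos l : ℕ) = i then ((val l : ℕ) : ℤ) else 0)| :=
          Finset.abs_sum_le_sum_abs _ _
      _ ≤ ∑ l : Fin (cnt r), ((D : ℕ) : ℤ) := by
          apply Finset.sum_le_sum
          intro l _
          split_ifs
          · rw [abs_of_nonneg (by positivity)]
            have := (val l).isLt
            exact_mod_cast Nat.lt_succ_iff.1 this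
          · simp
      _ = ((cnt r * D * 1 : ℕ) : ℤ) := by simp
      _ ≤ _ := by
          apply Int.ofNat_le.2
          gcongr
          exact Nat.one_le_pow _ _ (by omega)
  · calc |∑ k, ((y k : ℕ) : ℤ) * ((u (block brk i) : ℕ) : ℤ) ^ (((i : ℕ) + 1) * (k : ℕ))|
        ≤ ∑ k, |((y k : ℕ) : ℤ) * ((u (block brk i) : ℕ) : ℤ) ^ (((i : ℕ) + 1) * (k : ℕ))| :=
          Finset.abs_sum_le_sum_abs _ _
      _ ≤ ∑ k : Fin (4 * r ^ 2),
          ((D * (4 * r ^ 2 * n * D + 1) ^ (4 * r ^ 2 * n) : ℕ) : ℤ) := by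
          apply Finset.sum_le_sum
          intro k _
          rw [abs_of_nonneg (by positivity)]
          have h1 := (y k).isLt
          have h2 := (u (block brk i)).isLt
          have h3 : ((i : ℕ) + 1) * (k : ℕ) ≤ 4 * r ^ 2 * n := by
            rw [mul_comm (4 * r ^ 2) n]
            exact Nat.mul_le_mul i.isLt k.isLt.le
          have h4 : (y k : ℕ) * (u (block brk i) : ℕ) ^ (((i : ℕ) + 1) * (k : ℕ)) ≤
              D * (4 * r ^ 2 * n * D + 1) ^ (4 * r ^ 2 * n) := by
            calc (y k : ℕ) * (u (block brk i) : ℕ) ^ (((i : ℕ) + 1) * (k : ℕ))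
                ≤ D * (4 * r ^ 2 * n * D + 1) ^ (((i : ℕ) + 1) * (k : ℕ)) := by
                  gcongr
                  omega
              _ ≤ _ := by
                  gcongr
                  omega
          exact_mod_cast h4
      _ = _ := by
          rw [Finset.sum_const, Finset.card_univ, Fintype.card_fin, nsmul_eq_mul]
          push_cast
          ring

theorem sum_inc {F : Type*} [Field F] {n : ℕ} (m : MvPolynomial (Fin n) F) :
    ∑ i, Pool.Agent.H530R2.inc m i = incidences m := by
  classical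
  unfold Pool.Agent.H530R2.inc incidences
  simp only [Finset.card_eq_sum_ones, Finset.sum_filter]
  rw [Finset.sum_comm]
  apply Finset.sum_congr rfl
  intro s _
  rw [← Finset.sum_filter]
  congr 1
  ext i
  simp

theorem sum_weights {F : Type*} [Field F] {n N : ℕ}
    (M : Matrix (Fin N) (Fin N) (MvPolynomial (Fin n) F)) :
    ∑ i, ∑ p : Fin N × Fin N, Pool.Agent.H530R2.inc (M p.1 p.2) i = size M := by
  rw [Finset.sum_comm]
  simp only [sum_inc]
  rw [Fintype.sum_prod_type]
  rfl

/-- **Subexponential deterministic singularity test.** For all `n, D` and `r ≥ 1` the explicit set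
`points n D r` of at most `(4r²(n+1)(D+1))^(9r²)` integer points, with coordinates of polynomial
bit length, has the following property: a square polynomial matrix `M` of any size in `n`
variables over a field of characteristic zero, whose entries have altogether at most `r³`
(monomial, variable) incidences and whose determinant has degree at most `D`, is nonsingular if
and only if `M(p)` is nonsingular for some point `p` of the set. -/
theorem result {F : Type*} [Field F] [CharZero F] (n D r : ℕ) (hr : 1 ≤ r) :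
    (points n D r).card ≤ (4 * r ^ 2 * (n + 1) * (D + 1)) ^ (9 * r ^ 2) ∧
    (∀ p ∈ points n D r, ∀ i, |p i| ≤
      ((4 * r ^ 2 * D * (4 * r ^ 2 * n * D + 1) ^ (4 * r ^ 2 * n) : ℕ) : ℤ)) ∧
    ∀ (N : ℕ) (M : Matrix (Fin N) (Fin N) (MvPolynomial (Fin n) F)),
      size M ≤ r ^ 3 → M.det.totalDegree ≤ D →
      (M.det ≠ 0 ↔
        ∃ p ∈ points n D r, (M.map (MvPolynomial.eval fun i => (p i : F))).det ≠ 0) := by
  classical
  refine ⟨points_card n D r hr, points_bound n D r, ?_⟩
  intro N M hM hD
  have hev0 : ∀ q : Fin n → F, MvPolynomial.eval q M.det = (M.map (MvPolynomial.eval q)).det := by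
    intro q
    rw [RingHom.map_det]
    rfl
  constructor
  swap
  · rintro ⟨p, _, hp⟩ h0
    apply hp
    rw [← hev0, h0, map_zero]
  intro hf0
  by_contra hcon
  push Not at hcon
  obtain ⟨H, bl, hH, hbl, v, y, u, hv, hy, hu, hev⟩ :=
    Pool.Agent.H530R2.gen_seeds (ℓ := 4 * r ^ 2) _
      (Pool.Agent.H530R2.pm_supp M)
      (fun i => ∑ p : Fin N × Fin N, Pool.Agent.H530R2.inc (M p.1 p.2) i) (r ^ 3) r D
      ((sum_weights M).le.trans hM) hr hf0 hD
      (fun V hV hVw => by
        refine Pool.Agent.H530R2.pm_compress M V ?_ (2 * (r - 1)) _ hVw ?_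
        · intro i hi
          exact (Finset.mem_filter.1 (hV hi)).2
        · obtain ⟨r', rfl⟩ : ∃ r', r = r' + 1 := ⟨r - 1, by omega⟩
          rw [Nat.add_sub_cancel]
          nlinarith)
  obtain ⟨β, hβ⟩ := Pool.Agent.H530R2.exists_breaks bl hbl
  obtain ⟨pos, hpos1, hpos2⟩ := Pool.Agent.H530R2.exists_slots H hH
  apply hev
  have hcomm : n * (4 * r ^ 2) * D = 4 * r ^ 2 * n * D := by ring
  have hmem : point pos (fun l => if h : (pos l : ℕ) < n then v ⟨pos l, h⟩ else 0) β y u ∈
      points n D r := by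
    unfold points
    rw [Finset.mem_image]
    refine ⟨⟨pos, fun l => ⟨if h : (pos l : ℕ) < n then v ⟨pos l, h⟩ else 0, ?_⟩, β,
      fun k => ⟨y k, Nat.lt_succ_of_le (hy k)⟩,
      fun c => ⟨u c, Nat.lt_succ_of_le (by rw [← hcomm]; exact hu c)⟩⟩, Finset.mem_univ _, rfl⟩
    split_ifs
    · exact Nat.lt_succ_of_le (hv _)
    · omega
  have h0 := hcon _ hmem
  rw [← hev0] at h0
  rw [← h0]
  congr 2
  funext i
  have hblk : block β i = bl i := Fin.ext (hβ i)
  simp only [point]
  by_cases hi : i ∈ H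
  · obtain ⟨l, hl⟩ := (hpos1 i).2 hi
    rw [if_pos hi, if_pos ⟨l, hl⟩, Finset.sum_eq_single l]
    · rw [if_pos hl]
      have h1 : (pos l : ℕ) < n := by rw [hl]; exact i.isLt
      have h2 : (⟨pos l, h1⟩ : Fin n) = i := Fin.ext hl
      rw [dif_pos h1, h2]
      simp
    · intro l' _ hne'
      rw [if_neg]
      intro h
      exact hne' (hpos2 i l' l h hl)
    · simp
  · rw [if_neg hi, if_neg (fun h => hi ((hpos1 i).1 h)), hblk]
    push_cast
    rfl

end Pool.Agent.Results.MP_08e617_lc.SubexponentialTest
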