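import Mathlib
import Pool.Agent.H533R2.SymSditDesym

/-!
# Polynomial matrices: symmetric rank-two terms can be split into independent rank-one terms

Let `D` be an integral domain with `2 ≠ 0` (for instance `D = ℚ[t_1, ..., t_s]`), `B` a symmetric
matrix over `D` and `u_k, v_k` vectors over `D`. The polynomial matrix
`B + ∑ x_k (u_k v_kᵀ + v_k u_kᵀ)` is singular if and only if the polynomial matrix
`B + ∑ (x_k u_k v_kᵀ + x'_k v_k u_kᵀ)`, in twice as many indeterminates and with rank-one
coefficients, is singular.
-/

open MvPolynomial Matrix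

namespace Pool.Agent.Results.MP_08e617_lc.SymmetricRankTwo

open Pool.Agent.H533R2.SymSdit

/-- The matrix `B + ∑ k, x_k (u_k v_kᵀ + v_k u_kᵀ)` over `D[x_k : k ∈ σ]`. -/
noncomputable def symMatrix {D n σ : Type*} [CommRing D] [Fintype σ]
    (B : Matrix n n D) (u v : σ → n → D) : Matrix n n (MvPolynomial σ D) :=
  B.map C + ∑ k, (X k : MvPolynomial σ D) •
    (vecMulVec (u k) (v k) + vecMulVec (v k) (u k)).map C

/-- The matrix `B + ∑ k, (x_k u_k v_kᵀ + x'_k v_k u_kᵀ)` over `D[x_k, x'_k : k ∈ σ]`. -/
noncomputable def splitMatrix {D n σ : Type*} [CommRing D] [Fintype σ]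
    (B : Matrix n n D) (u v : σ → n → D) : Matrix n n (MvPolynomial (σ ⊕ σ) D) :=
  B.map C + ∑ k, ((X (Sum.inl k) : MvPolynomial (σ ⊕ σ) D) • (vecMulVec (u k) (v k)).map C +
    (X (Sum.inr k) : MvPolynomial (σ ⊕ σ) D) • (vecMulVec (v k) (u k)).map C)

theorem symb_symFam {K n σ : Type*} [Field K] [Fintype n] [Fintype σ]
    (B : Matrix n n K) (u v : σ → n → K) : symb (symFam B u v) = symMatrix B u v := by
  ext1 i j
  simp only [symb, symMatrix, Matrix.add_apply, Matrix.sum_apply, Matrix.smul_apply,
    Matrix.map_apply, Fintype.sum_option, symFam, ff, mul_one, smul_eq_mul]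
  congr 1
  exact Finset.sum_congr rfl fun k _ => mul_comm _ _

theorem symb_desymFam {K n σ : Type*} [Field K] [Fintype n] [Fintype σ]
    (B : Matrix n n K) (u v : σ → n → K) : symb (desymFam B u v) = splitMatrix B u v := by
  ext1 i j
  have e : ∀ k : σ, C (vecMulVec (u k) (v k) i j) * (X (Sum.inl k) : MvPolynomial (σ ⊕ σ) K) +
      C (vecMulVec (v k) (u k) i j) * X (Sum.inr k) =
      X (Sum.inl k) * C (vecMulVec (u k) (v k) i j) +
      X (Sum.inr k) * C (vecMulVec (v k) (u k) i j) := fun k => by
    rw [mul_comm, mul_comm (C (vecMulVec (v k) (u k) i j))]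
  simp only [symb, splitMatrix, Matrix.add_apply, Matrix.sum_apply, Matrix.smul_apply,
    Matrix.map_apply, Fintype.sum_option, Fintype.sum_sum_type, ← Finset.sum_add_distrib,
    desymFam, ff, mul_one, smul_eq_mul, e]

/-- base change of the symmetric matrix -/
theorem map_symMatrix {D K n σ : Type*} [CommRing D] [CommRing K] [Fintype n] [Fintype σ]
    (f : D →+* K) (B : Matrix n n D) (u v : σ → n → D) :
    (symMatrix B u v).map (MvPolynomial.map f) =
      symMatrix (B.map f) (fun k i => f (u k i)) (fun k i => f (v k i)) := by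
  ext1 i j
  simp only [symMatrix, Matrix.add_apply, Matrix.sum_apply, Matrix.smul_apply,
    Matrix.map_apply, smul_eq_mul, map_add, map_sum, map_mul, map_C, map_X, vecMulVec_apply]

theorem map_splitMatrix {D K n σ : Type*} [CommRing D] [CommRing K] [Fintype n] [Fintype σ]
    (f : D →+* K) (B : Matrix n n D) (u v : σ → n → D) :
    (splitMatrix B u v).map (MvPolynomial.map f) =
      splitMatrix (B.map f) (fun k i => f (u k i)) (fun k i => f (v k i)) := by
  ext1 i j
  simp only [splitMatrix, Matrix.add_apply, Matrix.sum_apply, Matrix.smul_apply,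
    Matrix.map_apply, smul_eq_mul, map_add, map_sum, map_mul, map_C, map_X, vecMulVec_apply]

/-- specialisation `x'_k ↦ x_k` -/
theorem spec_splitMatrix {D n σ : Type*} [CommRing D] [Fintype n] [Fintype σ]
    (B : Matrix n n D) (u v : σ → n → D) :
    (splitMatrix B u v).map (MvPolynomial.rename (Sum.elim id id : σ ⊕ σ → σ)) =
      symMatrix B u v := by
  ext1 i j
  simp only [splitMatrix, symMatrix, Matrix.add_apply, Matrix.sum_apply, Matrix.smul_apply,
    Matrix.map_apply, smul_eq_mul, map_add, map_sum, map_mul, rename_C, rename_X,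
    vecMulVec_apply, Sum.elim_inl, Sum.elim_inr, id]
  congr 1
  exact Finset.sum_congr rfl fun k _ => by ring

theorem result {D : Type*} [CommRing D] [IsDomain D] (h2 : (2 : D) ≠ 0)
    {n σ : Type*} [Fintype n] [DecidableEq n] [Fintype σ]
    (B : Matrix n n D) (hB : B.IsSymm) (u v : σ → n → D) :
    (symMatrix B u v).det = 0 ↔ (splitMatrix B u v).det = 0 := by
  constructor
  · intro h
    set K := FractionRing D
    have hinj : Function.Injective (algebraMap D K) := IsFractionRing.injective D K
    have h2K : (2 : K) ≠ 0 := by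
      intro h0
      apply h2
      apply hinj
      rw [map_zero, ← h0, map_ofNat]
    have hBK : (B.map (algebraMap D K)).IsSymm := by
      refine Matrix.IsSymm.ext fun i j => ?_
      simp only [Matrix.map_apply, hB.apply]
    have e1 : (symMatrix (B.map (algebraMap D K)) (fun k i => algebraMap D K (u k i))
        (fun k i => algebraMap D K (v k i))).det = 0 := by
      rw [← map_symMatrix]
      have := RingHom.map_det (MvPolynomial.map (σ := σ) (algebraMap D K)) (symMatrix B u v)
      rw [RingHom.mapMatrix_apply] at this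
      rw [← this, h, map_zero]
    rw [← symb_symFam] at e1
    have e2 := desym_of_sym _ hBK _ _ h2K e1
    rw [symb_desymFam, ← map_splitMatrix] at e2
    have := RingHom.map_det (MvPolynomial.map (σ := σ ⊕ σ) (algebraMap D K)) (splitMatrix B u v)
    rw [RingHom.mapMatrix_apply] at this
    rw [← this] at e2
    exact (MvPolynomial.map_injective _ hinj) (by rw [e2, map_zero])
  · intro h
    have := AlgHom.map_det (MvPolynomial.rename (R := D) (Sum.elim id id : σ ⊕ σ → σ))
      (splitMatrix B u v)
    rw [AlgHom.mapMatrix_apply, spec_splitMatrix] at this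
    rw [← this, h, map_zero]

end Pool.Agent.Results.MP_08e617_lc.SymmetricRankTwo
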